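import Pool.Agent.Helper20.MH.Goals
import Pool.Agent.Helper11.Ram.MCOR

/-!
# Packet MH-MCM: a machine with several heads and its system on numbers
-/

namespace Pool.Agent.Helper11.MH

open Pool.Agent.Helper65.LinSpace Pool.Agent.Helper78.Mpc Pool.Agent.Helper28.Ram Finset
open Pool.Agent.Helper65.OH (mv)
open Pool.Agent.Helper20.MH

variable {D K : ℕ} {A : MultiHead D K} {eA eN eW c0 : ℕ} {w y : List Bool} {m : Prm}

theorem conf_succ (A : MultiHead D K) (w y : List Bool) (t : ℕ) :
    A.conf w y (t + 1) = A.step w y (A.conf w y t) := rfl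

theorem mv_le (q : List Bool) (k : ℕ) : |mv q k| ≤ 1 := by
  unfold mv
  split_ifs <;> simp

theorem h_le (A : MultiHead D K) (w y : List Bool) (t : ℕ) (i : Fin K) (k : Fin D) :
    |(A.conf w y t).h i k| ≤ t := by
  induction t with
  | zero => simp [MultiHead.conf]
  | succ t ih =>
    rw [conf_succ]
    show |(A.conf w y t).h i k + mv _ (i * D + k)| ≤ _
    refine (abs_add_le _ _).trans ?_
    have := mv_le (A.nx w y (A.conf w y t)) (i * D + k)
    push_cast
    linarith

theorem inBox (A : MultiHead D K) (w y : List Bool) {κ t : ℕ} (hκ : 0 < κ)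
    (ht : t < 2 ^ (κ - 1)) (i : Fin K) : InBox κ ((A.conf w y t).h i) := by
  intro k
  have h1 := abs_le.1 (h_le A w y t i k)
  have h2 : (t : ℤ) < 2 ^ (κ - 1) := by exact_mod_cast ht
  have h3 : (2 : ℤ) ^ κ = 2 * 2 ^ (κ - 1) := by
    rw [← pow_succ']
    congr 1
    omega
  constructor
  · linarith [h1.1]
  · rw [h3]
    linarith [h1.2]

theorem fns (hP : ParM A eA eN eW c0 w y m) {c1 : ℕ} (hc0 : c0 = (c1 + 1) * (4 * K + 12))
    {cA cN cW : ℕ} (hc : c1 = cA + cN + cW)
    (hA : ∀ (w : List Bool) (S Λ β B : ℕ), cA * (S + w.length + 2) ≤ Λ →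
      cA + Λ + S + w.length + 1 ≤ β → 2 ^ (S + 1) ≤ B →
      fnN eA S Λ β B (num w) = if (A.addr w).length ≤ S then num (A.addr w) else 0)
    (hN : ∀ (w : List Bool) (S Λ β B : ℕ), cN * (S + w.length + 2) ≤ Λ →
      cN + Λ + S + w.length + 1 ≤ β → 2 ^ (S + 1) ≤ B →
      fnN eN S Λ β B (num w) = if (A.next w).length ≤ S then num (A.next w) else 0)
    (hW : ∀ (w : List Bool) (S Λ β B : ℕ), cW * (S + w.length + 2) ≤ Λ →
      cW + Λ + S + w.length + 1 ≤ β → 2 ^ (S + 1) ≤ B →
      fnN eW S Λ β B (num w) = if (A.write w).length ≤ S then num (A.write w) else 0) :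
    FnsM A m := by
  have key : ∀ (f : List Bool → List Bool) (e c' : ℕ), c' ≤ c1 →
      (∀ (w : List Bool) (S Λ β B : ℕ), c' * (S + w.length + 2) ≤ Λ →
        c' + Λ + S + w.length + 1 ≤ β → 2 ^ (S + 1) ≤ B →
        fnN e S Λ β B (num w) = if (f w).length ≤ S then num (f w) else 0) →
      Good f e m.S m.Λ m.β m.B ((2 * K + 2) * m.S + 3 * K + 6) := by
    intro f e c' hc' hf u hu
    have h1 : m.S + u.length + 2 ≤ (4 * K + 12) * (m.S + 1) := by nlinarith
    have h2 : c' * (m.S + u.length + 2) ≤ c1 * ((4 * K + 12) * (m.S + 1)) :=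
      Nat.mul_le_mul hc' h1
    have h3 : c0 * (m.S + 1) = c1 * ((4 * K + 12) * (m.S + 1)) + (4 * K + 12) * (m.S + 1) := by
      rw [hc0]; ring
    refine hf u _ _ _ _ ?_ ?_ hP.h_B
    · have := hP.h_Λ
      omega
    · have h4 := hP.h_β
      have h5 : c1 ≤ c1 * ((4 * K + 12) * (m.S + 1)) :=
        Nat.le_mul_of_pos_right _ (by positivity)
      omega
  exact ⟨by rw [hP.h_eA]; exact key _ _ _ (by omega) hA,
    by rw [hP.h_eN]; exact key _ _ _ (by omega) hN,
    by rw [hP.h_eW]; exact key _ _ _ (by omega) hW⟩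

theorem accN_zero_of {q : List Bool} (h : q.head? ≠ some true) : accN (num q) = 0 := by
  have h1 := accN_le (num q)
  have h2 : accN (num q) ≠ 1 := fun h3 => h ((accN_num q).1 h3)
  omega

theorem wq_mk (m : Prm) {u : ℕ} (hu : u < 2 ^ (m.S + 1)) (f : ℕ → ℕ) : m.wq (m.mk' u f) = u := by
  rw [Prm.wq, Prm.mk', Nat.add_mul_mod_self_left, Nat.mod_eq_of_lt hu]

theorem wq_lt (m : Prm) (q : ℕ) : m.wq q < 2 ^ (m.S + 1) := Nat.mod_lt _ (by positivity)

/-- A failing state remains a failing state. -/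
theorem fail_step {q v : ℕ} (h0 : m.wq q = 0) : m.wq (m.fN q v) = 0 := by
  have had : m.adN q = 0 := by
    rw [Prm.adN, h0, fnN_zero, Helper11.Ram.capN_zero]
  have hbad : m.bad q v ≠ 0 := by
    rw [Prm.bad, had]
    have : eq01 0 0 = 1 := by simp [eq01]
    omega
  have hsq : m.fN q v = m.mk' 0 (m.cq q) := by
    rw [Prm.fN, h0, Helper11.Ram.accN_zero, ifz_ne hbad]
    rfl
  rw [hsq]
  exact wq_mk m (by positivity) _

theorem acc_step {q v : ℕ} (h : accN (m.wq q) = 1) : m.wq (m.fN q v) = m.wq q := by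
  rw [Prm.fN, h, ifz_ne one_ne_zero]
  exact wq_mk m (wq_lt m q) _

theorem sconf_succ (m : Prm) (t : ℕ) : m.sys.conf (t + 1) =
    (m.fN (m.sys.conf t).1 (m.sys.rd (m.sys.conf t).2 (m.sys.conf t).1), fun z =>
      m.sys.wr (m.sys.conf t).1 (m.sys.rd (m.sys.conf t).2 (m.sys.conf t).1) z
        ((m.sys.conf t).2 z)) := rfl

theorem start (hP : ParM A eA eN eW c0 w y m) :
    (A.start.length ≤ m.S → GoodM m (A.conf w y 0) (m.sys.conf 0).1 (m.sys.conf 0).2) ∧
      (m.wq (m.sys.conf 0).1 = 0 ∨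
        GoodM m (A.conf w y 0) (m.sys.conf 0).1 (m.sys.conf 0).2) := by
  have hκ : 2 ^ (m.κ - 1) < 2 ^ m.κ :=
    Nat.pow_lt_pow_right (by norm_num) (by have := hP.pos_κ; omega)
  have hq : (m.sys.conf 0).1 = m.mk' (capN m.S m.st) (fun _ => 2 ^ (m.κ - 1)) := rfl
  have hw : m.wq (m.sys.conf 0).1 = capN m.S m.st := by
    rw [hq]
    exact wq_mk m (capN_lt _ _) _
  have hout : A.start.length ≤ m.S →
      GoodM m (A.conf w y 0) (m.sys.conf 0).1 (m.sys.conf 0).2 := by
    intro hlen
    refine ⟨?_, hlen, ?_, ?_⟩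
    · rw [hw, hP.h_st, capN_num hlen]
      rfl
    · intro i k
      have hlt : (i : ℕ) * D + k < m.K * m.D := by
        rw [hP.h_K, hP.h_D]
        calc (i : ℕ) * D + k < i * D + D := by have := k.2; omega
          _ = (i + 1) * D := by ring
          _ ≤ K * D := Nat.mul_le_mul_right _ i.2
      have h1 : m.cq (m.sys.conf 0).1 (i * D + k) = 2 ^ (m.κ - 1) := by
        rw [hq, Prm.cq, Prm.mk', Nat.add_mul_div_left _ _ (by positivity),
          Nat.div_eq_of_lt (capN_lt _ _), zero_add, dig_tab (fun _ _ => hκ) hlt]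
      rw [h1]
      show ((2 ^ (m.κ - 1) : ℕ) : ℤ) = 0 + 2 ^ (m.κ - 1)
      push_cast
      ring
    · intro i z _
      show 1 = capN m.S (num [])
      rw [capN_num (by simp)]
      rfl
  refine ⟨hout, ?_⟩
  by_cases hs : A.start.length ≤ m.S
  · exact Or.inr (hout hs)
  · left
    rw [hw, hP.h_st]
    by_contra h4
    exact hs (Helper11.Ram.capN_num_le h4)

/-- MCM. -/
theorem mcm (hS : STM_stmt) : MCM_stmt := by
  intro D K A
  obtain ⟨eA, cA, hA⟩ := fnN_spec A.addr_lin
  obtain ⟨eN, cN, hN⟩ := fnN_spec A.next_lin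
  obtain ⟨eW, cW, hW⟩ := fnN_spec A.write_lin
  refine ⟨eA, eN, eW, (cA + cN + cW + 1) * (4 * K + 12), fun w y m hP => ?_⟩
  have hF : FnsM A m := fns hP rfl rfl hA hN hW
  constructor
  · intro t ht
    have hex : ∃ t, accN (m.wq (m.sys.conf t).1) = 1 := ⟨t, ht⟩
    have key : ∀ s ≤ Nat.find hex, m.wq (m.sys.conf s).1 = 0 ∨
        GoodM m (A.conf w y s) (m.sys.conf s).1 (m.sys.conf s).2 := by
      intro s
      induction s with
      | zero => exact fun _ => (start hP).2
      | succ s ih =>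
        intro hs
        rcases ih (by omega) with h | h
        · left
          rw [sconf_succ]
          exact fail_step h
        · have hna : (A.conf w y s).q.head? ≠ some true := by
            intro hacc
            refine Nat.find_min hex (show s < Nat.find hex by omega) ?_
            rw [h.wq]
            exact (accN_num _).2 hacc
          rw [sconf_succ, conf_succ]
          exact (hS A eA eN eW _ w y m hP hF _ _ _ h hna).1
    have h1 := Nat.find_spec hex
    rcases key _ le_rfl with h | h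
    · rw [h, Helper11.Ram.accN_zero] at h1
      omega
    · rw [h.wq] at h1
      exact ⟨_, (accN_num _).1 h1⟩
  · intro r t hfit hacc hr ht
    classical
    have hex : ∃ t, A.AcceptsAt w y t := ⟨r, hacc⟩
    have hle : Nat.find hex ≤ r := Nat.find_min' hex hacc
    have key : ∀ s ≤ Nat.find hex,
        GoodM m (A.conf w y s) (m.sys.conf s).1 (m.sys.conf s).2 := by
      intro s
      induction s with
      | zero => exact fun _ => (start hP).1 (hfit 0 (Nat.zero_le _)).1
      | succ s ih =>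
        intro hs
        have h := ih (by omega)
        have hna : (A.conf w y s).q.head? ≠ some true :=
          Nat.find_min hex (show s < Nat.find hex by omega)
        rw [sconf_succ, conf_succ]
        obtain ⟨f1, f2, f3⟩ := hfit s (by omega)
        obtain ⟨f4, -, -⟩ := hfit (s + 1) (by omega)
        exact (hS A eA eN eW _ w y m hP hF _ _ _ h hna).2 f2 (fun i => f3 _ _) f4
          (fun i => inBox A w y (t := s + 1) hP.pos_κ (by omega) i)
    have h1 : ∀ n, accN (m.wq (m.sys.conf (Nat.find hex + n)).1) = 1 := by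
      intro n
      induction n with
      | zero =>
        rw [add_zero, (key _ le_rfl).wq]
        exact (accN_num _).2 (Nat.find_spec hex)
      | succ n ih =>
        rw [← add_assoc, sconf_succ]
        show accN (m.wq (m.fN _ _)) = 1
        rw [acc_step ih]
        exact ih
    have h2 := h1 (t - Nat.find hex)
    rwa [Nat.add_sub_cancel' (by omega)] at h2

end Pool.Agent.Helper11.MH
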